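import Pool.Agent.R689.VNum

/-!
# Local v-numbers of powers need not grow (MP_a79530_al, Q1)

For `I = (xy, xz, yz, x ^ (m + 4))` in `K[x, y, z]` and `p = (x, y, z)` one has `p ∈ Ass (I ^ k)` for
all `k ≥ 1`, and the local v-numbers at `p` of `I` and `I ^ 2` are `m + 3` and `3`.
-/

set_option autoImplicit false

namespace Pool.Agent.Results.MP_a79530_al.StrictGrowthFails

open MvPolynomial Pool.Agent.R689.VNum

/-- exponent vectors -/
noncomputable def ex (a b c : ℕ) : Fin 3 →₀ ℕ :=
  Finsupp.single 0 a + Finsupp.single 1 b + Finsupp.single 2 c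

lemma ex0 (a b c : ℕ) : ex a b c 0 = a := by simp [ex]
lemma ex1 (a b c : ℕ) : ex a b c 1 = b := by simp [ex]
lemma ex2 (a b c : ℕ) : ex a b c 2 = c := by simp [ex]

lemma ex_le {a b c : ℕ} {u : Fin 3 →₀ ℕ} : ex a b c ≤ u ↔ a ≤ u 0 ∧ b ≤ u 1 ∧ c ≤ u 2 := by
  rw [Finsupp.le_def]
  constructor
  · intro h
    have h0 := h 0
    have h1 := h 1
    have h2 := h 2
    rw [ex0] at h0
    rw [ex1] at h1
    rw [ex2] at h2
    exact ⟨h0, h1, h2⟩
  · rintro ⟨h0, h1, h2⟩ i
    fin_cases i
    · simpa [ex0] using h0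
    · simpa [ex1] using h1
    · simpa [ex2] using h2

lemma degree3 (u : Fin 3 →₀ ℕ) : u.degree = u 0 + u 1 + u 2 := by
  rw [Finsupp.degree_eq_sum, Fin.sum_univ_three]

lemma ex_degree (a b c : ℕ) : (ex a b c).degree = a + b + c := by
  rw [degree3, ex0, ex1, ex2]

/-- the exponents of the generators -/
def gens (m : ℕ) : Set (Fin 3 →₀ ℕ) := {ex 1 1 0, ex 1 0 1, ex 0 1 1, ex (m + 4) 0 0}

/-- the ideal `(xy, xz, yz, x ^ (m + 4))` -/
noncomputable def I (K : Type*) [Field K] (m : ℕ) : Ideal (MvPolynomial (Fin 3) K) :=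
  monIdeal K (gens m)

variable {K : Type*} [Field K] {m : ℕ}

lemma mem_I {u : Fin 3 →₀ ℕ} {g : Fin 3 →₀ ℕ} (hg : g ∈ gens m) (h : g ≤ u) :
    (monomial u 1 : MvPolynomial (Fin 3) K) ∈ I K m := monomial_mem.mpr ⟨g, hg, h⟩

lemma I_le : I K m ≤ idealOfVars (Fin 3) K ^ 2 := by
  intro f hf
  rw [mem_pow_idealOfVars_iff]
  intro u hu
  obtain ⟨a, ha, hau⟩ := mem_monIdeal.mp hf u hu
  refine le_trans ?_ (Finsupp.degree_mono hau)
  rcases ha with rfl | rfl | rfl | rfl <;> rw [ex_degree] <;> omega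

lemma I_pow_le (k : ℕ) : I K m ^ k ≤ idealOfVars (Fin 3) K ^ (2 * k) := by
  rw [pow_mul]
  exact Ideal.pow_right_mono I_le k

lemma X_mul_mon (i : Fin 3) (u : Fin 3 →₀ ℕ) :
    (X i * monomial u 1 : MvPolynomial (Fin 3) K) = monomial (u + Finsupp.single i 1) 1 := by
  rw [X, monomial_mul, one_mul, add_comm]

lemma mon_mul (u v : Fin 3 →₀ ℕ) :
    (monomial (u + v) 1 : MvPolynomial (Fin 3) K) = monomial u 1 * monomial v 1 := by
  rw [monomial_mul, one_mul]

/-- the socle monomial of `I ^ (k + 2)` -/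
lemma socle (k : ℕ) : ColonEq (I K m ^ (k + 2)) (monomial (ex (k + 1) (k + 1) 1) 1)
    (idealOfVars (Fin 3) K) := by
  classical
  apply colonEq_vars
  · intro h
    have h1 := I_pow_le (k + 2) h
    rw [mem_pow_idealOfVars_iff] at h1
    have h2 := h1 (ex (k + 1) (k + 1) 1) (by simp)
    rw [ex_degree] at h2
    omega
  · have key : ∀ u v : Fin 3 →₀ ℕ, u ∈ gens m → v ∈ gens m →
        (monomial (k • ex 1 1 0 + (u + v)) 1 : MvPolynomial (Fin 3) K) ∈ I K m ^ (k + 2) := by
      intro u v hu hv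
      rw [mon_mul, mon_mul, pow_add, pow_two]
      refine Ideal.mul_mem_mul ?_ (Ideal.mul_mem_mul (mem_I hu le_rfl) (mem_I hv le_rfl))
      have : (monomial (k • ex 1 1 0) 1 : MvPolynomial (Fin 3) K) =
          (monomial (ex 1 1 0) 1) ^ k := by
        rw [monomial_pow, one_pow]
      rw [this]
      exact Ideal.pow_mem_pow (mem_I (by simp [gens]) le_rfl) k
    have e : ∀ u v : Fin 3 →₀ ℕ, (∀ i, u i = v i) → u = v := fun u v h => Finsupp.ext h
    intro i
    rw [X_mul_mon]
    fin_cases i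
    · have h := key (ex 1 1 0) (ex 1 0 1) (by simp [gens]) (by simp [gens])
      convert h using 3
      ext i
      fin_cases i <;> simp [ex] <;> ring
    · have h := key (ex 1 1 0) (ex 0 1 1) (by simp [gens]) (by simp [gens])
      convert h using 3
      ext i
      fin_cases i <;> simp [ex] <;> ring
    · have h := key (ex 1 0 1) (ex 0 1 1) (by simp [gens]) (by simp [gens])
      convert h using 3
      ext i
      fin_cases i <;> simp [ex]

/-- the socle monomial of `I` -/
lemma socle_one : ColonEq (I K m) (monomial (ex (m + 3) 0 0) 1) (idealOfVars (Fin 3) K) := by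
  apply colonEq_monomial
  · rintro ⟨a, ha, h⟩
    rcases ha with rfl | rfl | rfl | rfl <;> rw [ex_le, ex0, ex1, ex2] at h <;> omega
  · intro i
    fin_cases i
    · refine ⟨ex (m + 4) 0 0, by simp [gens], ?_⟩
      rw [ex_le]
      simp [ex]
    · refine ⟨ex 1 1 0, by simp [gens], ?_⟩
      rw [ex_le]
      simp [ex]
    · refine ⟨ex 1 0 1, by simp [gens], ?_⟩
      rw [ex_le]
      simp [ex]

/-- Over every infinite field `K` and for every `m` there are a homogeneous ideal `I` of
`K[x, y, z]` and a prime `p` that is associated to all powers `I ^ k`, `k ≥ 1`, such that the local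
v-number of `I` at `p` is `m + 3` and the local v-number of `I ^ 2` at `p` is `3`. -/
theorem result (K : Type*) [Field K] [Infinite K] (m : ℕ) :
    ∃ I p : Ideal (MvPolynomial (Fin 3) K), Homog I ∧ (∀ k ≥ 1, p ∈ Ass (I ^ k)) ∧
      vnum p I = m + 3 ∧ vnum p (I ^ 2) = 3 := by
  classical
  refine ⟨I K m, idealOfVars (Fin 3) K, monIdeal_homogeneous _, ?_, ?_, ?_⟩
  · intro k hk
    refine ⟨vars_isPrime, ?_⟩
    rcases Nat.lt_or_ge k 2 with h | h
    · have : k = 1 := by omega
      subst this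
      rw [pow_one]
      exact ⟨_, socle_one⟩
    · obtain ⟨j, rfl⟩ : ∃ j, k = j + 2 := ⟨k - 2, by omega⟩
      exact ⟨_, socle j⟩
  · apply le_antisymm
    · apply Nat.sInf_le
      exact ⟨_, isHomogeneous_monomial 1 (by rw [ex_degree]), socle_one⟩
    · apply le_csInf
      · exact ⟨_, _, isHomogeneous_monomial 1 rfl, socle_one⟩
      · rintro d ⟨f, hf, hc⟩
        obtain ⟨u, hu, h1, h2⟩ := exists_socle hf hc
        rw [degree3] at hu
        have hn : ∀ a ∈ gens m, ¬ a ≤ u := fun a ha h => h1 ⟨a, ha, h⟩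
        have n1 := hn (ex 1 1 0) (by simp [gens])
        have n2 := hn (ex 1 0 1) (by simp [gens])
        have n3 := hn (ex 0 1 1) (by simp [gens])
        rw [ex_le] at n1 n2 n3
        have s0 := h2 0
        have s1 := h2 1
        have s2 := h2 2
        simp only [gens, Set.mem_insert_iff, Set.mem_singleton_iff, exists_eq_or_imp,
          exists_eq_left, ex_le, Finsupp.add_apply, Finsupp.single_apply] at s0 s1 s2
        simp at s0 s1 s2
        omega
  · apply le_antisymm
    · apply Nat.sInf_le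
      refine ⟨monomial (ex (0 + 1) (0 + 1) 1) 1, isHomogeneous_monomial 1 (by rw [ex_degree]), ?_⟩
      exact socle 0
    · apply le_csInf
      · exact ⟨_, _, isHomogeneous_monomial 1 rfl, socle 0⟩
      · rintro d ⟨f, hf, hc⟩
        obtain ⟨h1, h2⟩ := hc.vars
        have hf0 : f ≠ 0 := by
          rintro rfl
          exact h1 (Ideal.zero_mem _)
        obtain ⟨u, hu⟩ := MvPolynomial.support_nonempty.mpr hf0
        have h3 := I_pow_le 2 (h2 0)
        rw [mem_pow_idealOfVars_iff] at h3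
        have h4 := h3 (u + Finsupp.single 0 1) (by
          rw [mem_support_iff, mul_comm, coeff_mul_X]
          exact mem_support_iff.mp hu)
        have h5 := hf (mem_support_iff.mp hu)
        have h6 : u.degree = d := by
          rw [← h5, Finsupp.degree_eq_weight_one]
          rfl
        rw [map_add, h6, Finsupp.degree_single] at h4
        omega

end Pool.Agent.Results.MP_a79530_al.StrictGrowthFails
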